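import Mathlib

set_option autoImplicit false

namespace Pool.Agent.H.MP_159dfd_an

open Set Real

/-- solution of the eigenvalue equation on an edge, with its derivative -/
def Sol (μ l : ℝ) (f g : ℝ → ℝ) : Prop := ∀ x ∈ Icc 0 l,
  HasDerivWithinAt f (g x) (Icc 0 l) x ∧ HasDerivWithinAt g (-μ * f x) (Icc 0 l) x

/-- eigenfunctions with delta vertex conditions -/
def Eig {V E : Type} [Fintype E] [DecidableEq V] (s t : E → V) (L : E → ℝ) (α : V → ℝ) (μ : ℝ)
    (f : E → ℝ → ℝ) : Prop :=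
  ∃ (g : E → ℝ → ℝ) (u : V → ℝ), (∀ e, Sol μ (L e) (f e) (g e)) ∧
    (∀ e, f e 0 = u (s e) ∧ f e (L e) = u (t e)) ∧
    (∀ v, ∑ e with s e = v, g e 0 - ∑ e with t e = v, g e (L e) = α v * u v) ∧
    ∃ e, ∃ x ∈ Icc 0 (L e), f e x ≠ 0

/-- points of an edge where some eigenfunction attains a global extremum -/
def Hot {V E : Type} [Fintype E] [DecidableEq V] (s t : E → V) (L : E → ℝ) (α : V → ℝ) (μ : ℝ)
    (e : E) : Set ℝ :=
  {x ∈ Icc 0 (L e) | ∃ f, Eig s t L α μ f ∧ ((∀ d, ∀ y ∈ Icc 0 (L d), f d y ≤ f e x) ∨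
    ∀ d, ∀ y ∈ Icc 0 (L d), f e x ≤ f d y)}

/-- connectedness using the edges of a set -/
def Conn {V E : Type} (s t : E → V) (S : Set E) : Prop :=
  ∀ a b, Relation.EqvGen (fun a b => ∃ e ∈ S, s e = a ∧ t e = b) a b

theorem Sol.of {μ l : ℝ} {f g : ℝ → ℝ} (h : ∀ x, HasDerivAt f (g x) x)
    (h' : ∀ x, HasDerivAt g (-μ * f x) x) : Sol μ l f g :=
  fun x _ => ⟨(h x).hasDerivWithinAt, (h' x).hasDerivWithinAt⟩

theorem Sol.lin {μ l : ℝ} {f g p q : ℝ → ℝ} (h : Sol μ l f g) (h' : Sol μ l p q) (a b : ℝ) :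
    Sol μ l (fun x => a * f x + b * p x) (fun x => a * g x + b * q x) := fun x hx =>
  ⟨((h x hx).1.const_mul a).add ((h' x hx).1.const_mul b),
    (((h x hx).2.const_mul a).add ((h' x hx).2.const_mul b)).congr_deriv (by ring)⟩

theorem Sol.zero {μ l : ℝ} {f g : ℝ → ℝ} (h : Sol μ l f g) (f0 : f 0 = 0) (g0 : g 0 = 0) :
    ∀ x ∈ Icc 0 l, f x = 0 ∧ g x = 0 := by
  have d : ∀ x ∈ Icc 0 l, HasDerivWithinAt (fun x => f x * f x + g x * g x)
      (2 * (1 - μ) * (f x * g x)) (Icc 0 l) x := fun x hx =>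
    (((h x hx).1.mul (h x hx).1).add ((h x hx).2.mul (h x hx).2)).congr_deriv (by ring)
  intro x hx
  have := eq_zero_of_abs_deriv_le_mul_abs_self_of_eq_zero_right (K := |1 - μ|)
    (fun x hx => (d x hx).continuousWithinAt)
    (fun x hx => (d x (Ico_subset_Icc_self hx)).mono_of_mem_nhdsWithin (Icc_mem_nhdsGE_of_mem hx))
    (by simp [f0, g0]) (fun x _ => by
      rw [norm_eq_abs, norm_eq_abs, mul_comm 2, mul_assoc, abs_mul,
        abs_of_nonneg (add_nonneg (mul_self_nonneg (f x)) (mul_self_nonneg (g x)))]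
      refine mul_le_mul_of_nonneg_left (abs_le.2 ⟨?_, ?_⟩) (abs_nonneg _)
      · nlinarith [sq_nonneg (f x + g x)]
      · nlinarith [sq_nonneg (f x - g x)]) x hx
  constructor <;> nlinarith [mul_self_nonneg (f x), mul_self_nonneg (g x)]

theorem Sol.eq {μ l : ℝ} {f g p q : ℝ → ℝ} (h : Sol μ l f g) (h' : Sol μ l p q) (f0 : f 0 = p 0)
    (g0 : g 0 = q 0) : ∀ x ∈ Icc 0 l, f x = p x ∧ g x = q x := fun x hx => by
  have := (h.lin h' 1 (-1)).zero (by linarith) (by linarith) x hx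
  constructor <;> linarith [this.1, this.2]

theorem trig (k l a b : ℝ) : Sol (k ^ 2) l (fun x => a * cos (k * x) + b * sin (k * x))
    (fun x => k * (b * cos (k * x) - a * sin (k * x))) := by
  have c := fun x => ((hasDerivAt_id' x).const_mul k).cos
  have s := fun x => ((hasDerivAt_id' x).const_mul k).sin
  exact .of (fun x => (((c x).const_mul a).add ((s x).const_mul b)).congr_deriv (by ring))
    fun x => ((((c x).const_mul b).sub ((s x).const_mul a)).const_mul k).congr_deriv (by ring)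

theorem trig1 (l a b : ℝ) : Sol 1 l (fun x => a * cos x + b * sin x)
    (fun x => b * cos x - a * sin x) := by simpa using trig 1 l a b

theorem Sol.trig {k l : ℝ} {f g : ℝ → ℝ} (h : Sol (k ^ 2) l f g) (hk : k ≠ 0) :
    ∃ b, g 0 = k * b ∧ ∀ x ∈ Icc 0 l, f x = f 0 * cos (k * x) + b * sin (k * x) ∧
      g x = k * (b * cos (k * x) - f 0 * sin (k * x)) :=
  ⟨g 0 / k, by field_simp, h.eq (MP_159dfd_an.trig k l _ _) (by simp) (by simp; field_simp)⟩

/-- sources of the example -/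
def s : Fin 4 → Fin 3 := fun _ => 0
/-- targets of the example -/
def t : Fin 4 → Fin 3 := ![1, 1, 1, 2]
/-- lengths of the example -/
noncomputable def L : Fin 4 → ℝ := ![π, π, π / 2, arctan 2]

theorem Lpos : ∀ e, 0 < L e := fun e => by
  fin_cases e <;> simp [L, pi_pos]

theorem conn : Conn s t univ := fun a b => by
  have : ∀ a, Relation.EqvGen (fun a b => ∃ e ∈ univ, s e = a ∧ t e = b) 0 a := fun a => by
    fin_cases a
    exacts [.refl _, .rel _ _ ⟨0, trivial, rfl, rfl⟩, .rel _ _ ⟨3, trivial, rfl, rfl⟩]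
  exact (this a).symm.trans _ _ _ (this b)

theorem bridge : ¬ Conn s t {3}ᶜ := fun h => by
  have : ∀ a b, Relation.EqvGen (fun a b => ∃ e ∈ ({3}ᶜ : Set (Fin 4)), s e = a ∧ t e = b) a b →
      (a = 2 ↔ b = 2) := by
    intro a b h
    induction h with
    | rel a b h => obtain ⟨e, h, rfl, rfl⟩ := h; revert e; simp only [mem_compl_singleton_iff]; decide
    | refl => rfl
    | symm _ _ _ h => exact h.symm
    | trans _ _ _ _ _ h k => exact h.trans k
  simpa using this 0 2 (h 0 2)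

theorem shape {k : ℝ} (hk : k ≠ 0) {f : Fin 4 → ℝ → ℝ} (h : Eig s t L 0 (k ^ 2) f) :
    ∃ (p q : ℝ) (b : Fin 4 → ℝ), (∀ e, ∀ x ∈ Icc 0 (L e), f e x = p * cos (k * x) + b e * sin (k * x)) ∧
      p * cos (k * π) + b 0 * sin (k * π) = q ∧ p * cos (k * π) + b 1 * sin (k * π) = q ∧
      p * cos (k * (π / 2)) + b 2 * sin (k * (π / 2)) = q ∧ b 0 + b 1 + b 2 + b 3 = 0 ∧
      (b 0 + b 1) * cos (k * π) - 2 * p * sin (k * π) + b 2 * cos (k * (π / 2)) =
        p * sin (k * (π / 2)) ∧ b 3 * cos (k * arctan 2) = p * sin (k * arctan 2) ∧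
      (p ≠ 0 ∨ ∃ e, b e ≠ 0) := by
  obtain ⟨g, u, h1, h2, h3, e, x, h4, h5⟩ := h
  choose b b1 b2 using fun e => (h1 e).trig hk
  have z : ∀ e, f e 0 = u 0 := fun e => (h2 e).1
  simp only [z] at b2
  have m : ∀ e, L e ∈ Icc 0 (L e) := fun e => right_mem_Icc.2 (Lpos e).le
  have a := fun e => (b2 e _ (m e)).1.symm.trans (h2 e).2
  have c := fun e => (b2 e _ (m e)).2
  have v0 := h3 0
  have v1 := h3 1
  have v2 := h3 2
  simp only [Finset.sum_filter, Fin.sum_univ_four, b1, c] at v0 v1 v2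
  simp [s, t, L] at v0 v1 v2
  refine ⟨u 0, u 1, b, fun e x hx => (b2 e x hx).1, a 0, a 1, a 2,
    mul_left_cancel₀ hk (by linarith), mul_left_cancel₀ hk (by linarith),
    sub_eq_zero.1 (v2.resolve_left hk), ?_⟩
  by_contra n
  push Not at n
  exact h5 (by rw [(b2 e x h4).1, n.1, n.2, zero_mul, zero_mul, add_zero])

theorem c2 : sin (arctan 2) = 2 * cos (arctan 2) := by
  have := tan_arctan 2
  rwa [tan_eq_sin_div_cos, div_eq_iff (cos_arctan_pos 2).ne'] at this

theorem eig (x : ℝ) : Eig s t L 0 1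
    fun e y => cos x * cos y + ![sin x, -cos x - sin x, -cos x, 2 * cos x] e * sin y := by
  refine ⟨_, ![cos x, -cos x, cos x * cos (arctan 2) + 2 * cos x * sin (arctan 2)],
    fun e => trig1 _ _ _, fun e => ?_, fun v => ?_, ?_⟩
  · fin_cases e <;> simp [s, t, L]
  · fin_cases v <;> simp [Finset.sum_filter, Fin.sum_univ_four, s, t, L, c2] <;> ring
  · by_cases h : cos x = 0
    · refine ⟨0, π / 2, ⟨by positivity, half_le_self pi_pos.le⟩, fun e => ?_⟩
      have := sin_sq_add_cos_sq x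
      simp at e
      simp [h, e] at this
    · exact ⟨0, 0, left_mem_Icc.2 pi_pos.le, by simpa⟩

theorem sec : IsLeast {ν | 0 < ν ∧ ∃ f, Eig s t L 0 ν f} 1 := by
  refine ⟨⟨one_pos, _, eig 0⟩, fun ν ⟨h0, f, h⟩ => ?_⟩
  by_contra h1
  have k0 := sqrt_pos.2 h0
  have k1 : √ν < 1 := (sqrt_lt' one_pos).2 (by linarith)
  rw [← sq_sqrt h0.le] at h
  obtain ⟨p, q, b, -, e0, e1, e2, e3, e4, e5, n⟩ := shape k0.ne' h
  generalize √ν = k at *
  have at0 : 0 < arctan 2 := arctan_pos.2 two_pos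
  have at1 := arctan_lt_pi_div_two 2
  have s0 : 0 < sin (k * (π / 2)) := sin_pos_of_pos_of_lt_pi (by positivity) (by nlinarith [pi_pos])
  have c0 : 0 < cos (k * (π / 2)) := cos_pos_of_mem_Ioo ⟨by nlinarith [pi_pos], by nlinarith [pi_pos]⟩
  have c3 : 0 < cos (k * arctan 2) := cos_pos_of_mem_Ioo ⟨by nlinarith, by nlinarith⟩
  have T0 : 0 < tan (k * arctan 2) := tan_pos_of_pos_of_lt_pi_div_two (by positivity) (by nlinarith)
  have T1 : tan (k * arctan 2) < 2 :=
    (tan_lt_tan_of_nonneg_of_lt_pi_div_two (by positivity) at1 (by nlinarith)).trans_eq (tan_arctan 2)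
  have b3 : b 3 = p * tan (k * arctan 2) := by
    rw [tan_eq_sin_div_cos]; field_simp; linarith
  have sc := sin_sq_add_cos_sq (k * (π / 2))
  rw [show k * π = 2 * (k * (π / 2)) by ring, sin_two_mul, cos_two_mul] at e0 e1 e4
  generalize sin (k * (π / 2)) = S at *
  generalize cos (k * (π / 2)) = c at *
  generalize tan (k * arctan 2) = T at *
  have b01 : b 1 = b 0 := mul_right_cancel₀ (mul_pos (mul_pos two_pos s0) c0).ne' (by linarith)
  have b2 : b 2 = -2 * b 0 - p * T := by linarith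
  rw [b2] at e2 e4
  rw [b01] at e4
  have S1 : S < 1 := by nlinarith
  have c1 : c < 1 := by nlinarith
  have D : 0 < 2 + 7 * c - 9 * c ^ 3 + S * T * (3 * c ^ 2 - 1) := by
    have : S * T < 2 := by nlinarith
    have : 0 < S * T := by positivity
    rcases le_total (3 * c ^ 2) 1 with d | d <;> nlinarith [mul_pos c0 c0, pow_pos c0 3]
  have p0 : p = 0 := (mul_eq_zero.1 (show p * _ = 0 by
    linear_combination (c ^ 2 - 1 / 2 - c / 2) * (e0 - e2) * 2 - S * (1 + c) * e4 +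
      (-p * (1 + c) * (1 + 4 * c)) * sc)).resolve_right D.ne'
  have b0 : b 0 = 0 := (mul_eq_zero.1 (show b 0 * (S * (c + 1)) = 0 by
    rw [p0] at e0 e2; linarith)).resolve_right (by positivity)
  rcases n with n | ⟨e, n⟩
  · exact n p0
  · rw [p0, zero_mul] at b2 b3
    fin_cases e <;> exact n (by simp; linarith)

theorem inf : (Hot s t L 0 1 0).Infinite := by
  have a : arccos (1 / 3) < π / 2 := arccos_lt_pi_div_two.2 (by norm_num)
  refine (Icc_infinite a).mono fun x hx => ?_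
  have x0 := (arccos_nonneg _).trans hx.1
  have x1 : x ≤ π := by linarith [hx.2, pi_pos]
  have c0 : 0 ≤ cos x := cos_nonneg_of_mem_Icc ⟨by linarith, hx.2⟩
  have c1 : cos x ≤ 1 / 3 := (cos_le_cos_of_nonneg_of_le_pi (arccos_nonneg _) x1 hx.1).trans_eq
    (cos_arccos (by norm_num) (by norm_num))
  have s0 := sin_nonneg_of_nonneg_of_le_pi x0 x1
  refine ⟨⟨x0, x1⟩, _, eig x, Or.inl fun d y hy => ?_⟩
  have sy : 0 ≤ sin y := sin_nonneg_of_nonneg_of_le_pi hy.1 (hy.2.trans (by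
    fin_cases d <;> simp [L] <;> linarith [pi_pos, arctan_lt_pi_div_two 2]))
  have := sin_sq_add_cos_sq x
  have := cos_le_one (x - y)
  rw [cos_sub] at this
  fin_cases d <;> simp <;> nlinarith [cos_le_one y, sin_le_one y]

theorem cold : 0 ∉ Hot s t L 0 1 0 := by
  rintro ⟨-, f, h, hf⟩
  obtain ⟨p, q, b, F, e0, -, e2, e3, e4, e5, n⟩ := shape one_ne_zero (by simpa using h)
  simp [c2] at F e0 e2 e4 e5
  have c0 := cos_arctan_pos 2
  have b3 : b 3 = 2 * p := mul_right_cancel₀ c0.ne' (by linarith)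
  have sc := sin_sq_add_cos_sq (arctan 2)
  rw [c2] at sc
  have c1 : 1 < 5 * cos (arctan 2) := by nlinarith
  have m : ∀ e, L e ∈ Icc 0 (L e) := fun e => right_mem_Icc.2 (Lpos e).le
  have h2 : π / 2 ∈ Icc 0 π := ⟨by positivity, half_le_self pi_pos.le⟩
  have A := F 0 0 le_rfl pi_pos.le
  have B := F 0 π pi_pos.le le_rfl
  have C := F 3 _ (m 3).1 le_rfl
  have D := F 0 _ h2.1 h2.2
  have G := F 1 _ h2.1 h2.2
  simp [L, c2, b3] at A B C D G
  have : p = 0 ∧ b 0 = 0 := by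
    rcases hf with hf | hf <;>
    · have h3 := hf 0 π (m 0)
      have h4 := hf 3 (arctan 2) (m 3)
      have h5 := hf 0 _ h2
      have h6 := hf 1 _ h2
      rw [A] at h3 h4 h5 h6
      have : p = 0 := by nlinarith
      exact ⟨this, by linarith⟩
  rcases n with n | ⟨e, n⟩
  · exact n this.1
  · fin_cases e <;> simp at n <;> exact n (by linarith [this.1, this.2])

end Pool.Agent.H.MP_159dfd_an
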